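import Mathlib
import Pool.Agent.H397R2.Reg

/-!
Collatz-invariant functions on the negative integers: transport of the results of
`Pool.Agent.H397R2` (positive integers) to the negative side.
-/

set_option autoImplicit false

namespace Pool.Agent.H966R2.Neg

open Pool.Agent.H397R2 Pool.Agent.Helper605.CP Filter Topology

variable {α : Type*}

/-- The accelerated Collatz map on `ℤ`. -/
def TZ (x : ℤ) : ℤ := if x % 2 = 0 then x / 2 else (3 * x + 1) / 2

lemma TZ_iter (m : ℕ) : ∀ (n : ℕ) (b : ℤ),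
    TZ^[m] ((n : ℤ) + 2 ^ m * b) = ((orb m n).2 : ℤ) + 3 ^ (orb m n).1 * b := by
  induction m with
  | zero => intro n b; simp [orb]
  | succ m ih =>
    intro n b
    rw [Function.iterate_succ_apply', orb_succ, show (2 : ℤ) ^ (m + 1) * b = 2 ^ m * (2 * b) by ring,
      ih]
    generalize orb m n = s
    obtain ⟨o, x⟩ := s
    simp only [st1, mul_zero, zero_add]
    obtain ⟨k, hk⟩ : ∃ k, k = (3 : ℤ) ^ o * b := ⟨_, rfl⟩
    have h2 : (3 : ℤ) ^ o * (2 * b) = 2 * k := by rw [hk]; ring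
    have h3 : (3 : ℤ) ^ (o + 1) * b = 3 * k := by rw [hk]; ring
    rw [h2]
    unfold TZ
    by_cases hx : x % 2 = 0
    · have h4 : ((x : ℤ) + 2 * k) % 2 = 0 := by omega
      rw [if_pos h4, if_pos hx]
      simp only
      rw [← hk]
      push_cast
      omega
    · have h4 : ¬ ((x : ℤ) + 2 * k) % 2 = 0 := by omega
      rw [if_neg h4, if_neg hx]
      simp only
      rw [h3]
      push_cast
      omega

/-- `c` (a function of `n`, standing for the integer `-n`) is constant along the trajectories of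
the accelerated Collatz map on the negative integers. -/
structure NInv (c : ℕ → α) : Prop where
  even : ∀ n, c (2 * n) = c n
  odd : ∀ n, c (3 * n + 1) = c (2 * n + 1)

lemma NInv.iter {c : ℕ → α} (h : NInv c) (m : ℕ) : ∀ x : ℤ, x ≤ 0 →
    TZ^[m] x ≤ 0 ∧ c (TZ^[m] x).natAbs = c x.natAbs := by
  induction m with
  | zero => intro x hx; exact ⟨hx, rfl⟩
  | succ m ih =>
    intro x hx
    obtain ⟨h1, h2⟩ := ih x hx
    rw [Function.iterate_succ_apply', ← h2]
    generalize TZ^[m] x = y at h1 h2 ⊢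
    unfold TZ
    by_cases hy : y % 2 = 0
    · rw [if_pos hy]
      refine ⟨by omega, ?_⟩
      obtain ⟨w, hw⟩ : ∃ w : ℕ, y = -(2 * (w : ℤ)) := ⟨(-y / 2).toNat, by omega⟩
      have e1 : (y / 2).natAbs = w := by omega
      have e2 : y.natAbs = 2 * w := by omega
      rw [e1, e2, h.even]
    · rw [if_neg hy]
      refine ⟨by omega, ?_⟩
      obtain ⟨w, hw⟩ : ∃ w : ℕ, y = -(2 * (w : ℤ) + 1) := ⟨(-y / 2).toNat, by omega⟩
      have e1 : ((3 * y + 1) / 2).natAbs = 3 * w + 1 := by omega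
      have e2 : y.natAbs = 2 * w + 1 := by omega
      rw [e1, e2, h.odd]

lemma NInv.pow {c : ℕ → α} (h : NInv c) (j n : ℕ) : c (2 ^ j * n) = c n := by
  induction j with
  | zero => simp
  | succ j ih => rw [pow_succ', mul_assoc, h.even, ih]

/-- value of `c` after `m` accelerated steps from `-(2^m q) + r`, `r ≤ 2^m q`. -/
lemma NInv.step {c : ℕ → α} (h : NInv c) (m r q : ℕ) (hr : r ≤ 2 ^ m * q) :
    (orb m r).2 ≤ 3 ^ (orb m r).1 * q ∧
    c (3 ^ (orb m r).1 * q - (orb m r).2) = c (2 ^ m * q - r) := by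
  have hx : ((r : ℤ) + 2 ^ m * (-(q : ℤ))) ≤ 0 := by
    have : (r : ℤ) ≤ 2 ^ m * q := by exact_mod_cast hr
    linarith
  obtain ⟨h1, h2⟩ := h.iter m _ hx
  rw [TZ_iter] at h1 h2
  have h3 : ((orb m r).2 : ℤ) ≤ 3 ^ (orb m r).1 * q := by linarith
  have h3' : (orb m r).2 ≤ 3 ^ (orb m r).1 * q := by exact_mod_cast h3
  refine ⟨h3', ?_⟩
  have e1 : (((orb m r).2 : ℤ) + 3 ^ (orb m r).1 * (-(q : ℤ))).natAbs =
      3 ^ (orb m r).1 * q - (orb m r).2 := by
    have : (((orb m r).2 : ℤ) + 3 ^ (orb m r).1 * (-(q : ℤ))) =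
        -(((3 ^ (orb m r).1 * q - (orb m r).2 : ℕ) : ℤ)) := by
      rw [Nat.cast_sub h3']; push_cast; ring
    rw [this, Int.natAbs_neg, Int.natAbs_natCast]
  have e2 : ((r : ℤ) + 2 ^ m * (-(q : ℤ))).natAbs = 2 ^ m * q - r := by
    have : ((r : ℤ) + 2 ^ m * (-(q : ℤ))) = -(((2 ^ m * q - r : ℕ) : ℤ)) := by
      rw [Nat.cast_sub hr]; push_cast; ring
    rw [this, Int.natAbs_neg, Int.natAbs_natCast]
  rw [e1, e2] at h2
  exact h2

open Finset in
/-- `c n = c (n + 1)` outside a set of density zero. -/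
lemma NInv.zd {c : ℕ → α} (h : NInv c) : ZD {n | c n ≠ c (n + 1)} := by
  classical
  intro ε hε
  obtain ⟨m, hm1, hm⟩ := u_small ((0, 0), (0, 1)) (ε / 2) (by positivity)
  set B : Finset ℕ := (range (2 ^ m)).filter (fun r => orb m r ≠ orb m (r + 1)) with hB
  have hBcard : (B.card : ℝ) = 2 ^ m * u m ((0, 0), (0, 1)) := by
    have h1 := sum_u m 0
    rw [add_zero] at h1
    rw [← h1, hB, Finset.card_filter]
    push_cast
    refine Finset.sum_congr rfl fun n _ => ?_
    unfold u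
    by_cases hn : orb m n = orb m (n + 1)
    · simp [hn]
    · simp [hn]
  have hBlt : (B.card : ℝ) ≤ 2 ^ m * (ε / 2) := by
    rw [hBcard]
    exact mul_le_mul_of_nonneg_left hm.le (by positivity)
  refine ⟨2 ^ m, fun N hN => ?_⟩
  -- the residue of `-(n+1)`
  let res : ℕ → ℕ := fun n => 2 ^ m * (n / 2 ^ m + 1) - (n + 1)
  have hpm : 0 < 2 ^ m := by positivity
  have hres : ∀ n, res n < 2 ^ m ∧ res n + 1 + n = 2 ^ m * (n / 2 ^ m + 1) := by
    intro n
    have h1 := Nat.lt_mul_div_succ n hpm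
    have h2 := Nat.mul_div_le n (2 ^ m)
    simp only [res]
    rw [mul_add, mul_one] at h1 ⊢
    omega
  have hbad : ∀ n, c n ≠ c (n + 1) → res n ∈ B := by
    intro n hn
    obtain ⟨h1, h2⟩ := hres n
    rw [hB, Finset.mem_filter, Finset.mem_range]
    refine ⟨h1, fun heq => hn ?_⟩
    obtain ⟨_, e1⟩ := h.step m (res n) (n / 2 ^ m + 1) (by omega)
    obtain ⟨_, e2⟩ := h.step m (res n + 1) (n / 2 ^ m + 1) (by omega)
    rw [heq] at e1
    rw [show 2 ^ m * (n / 2 ^ m + 1) - res n = n + 1 by omega] at e1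
    rw [show 2 ^ m * (n / 2 ^ m + 1) - (res n + 1) = n by omega] at e2
    rw [← e1, ← e2]
  have hcard : ({n | c n ≠ c (n + 1)} ∩ Set.Icc 1 N).ncard ≤
      ((range (N / 2 ^ m + 1)) ×ˢ B).card := by
    rw [← Set.ncard_coe_finset]
    apply Set.ncard_le_ncard_of_injOn (fun n => (n / 2 ^ m, res n))
    · rintro n ⟨hn1, hn2⟩
      simp only [Finset.coe_product, Set.mem_prod, Finset.mem_coe, Finset.mem_range]
      exact ⟨Nat.lt_succ_of_le (Nat.div_le_div_right hn2.2), hbad n hn1⟩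
    · intro x _ y _ hxy
      simp only [Prod.mk.injEq] at hxy
      obtain ⟨h1, h2⟩ := hxy
      have h3 := (hres x).2
      have h4 := (hres y).2
      rw [h1, h2] at h3
      omega
  rw [Finset.card_product, Finset.card_range] at hcard
  have h1 : ((({n | c n ≠ c (n + 1)} ∩ Set.Icc 1 N).ncard : ℕ) : ℝ) ≤
      ((N / 2 ^ m : ℕ) + 1) * B.card := by exact_mod_cast hcard
  have hN' : (2 : ℝ) ^ m ≤ N := by exact_mod_cast hN
  have h2 : (((N / 2 ^ m : ℕ) : ℝ)) ≤ N / 2 ^ m := by
    have := @Nat.cast_div_le ℝ _ _ _ N (2 ^ m)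
    push_cast at this
    exact this
  calc ((({n | c n ≠ c (n + 1)} ∩ Set.Icc 1 N).ncard : ℕ) : ℝ)
      ≤ ((N / 2 ^ m : ℕ) + 1) * B.card := h1
    _ ≤ (N / 2 ^ m + 1) * (2 ^ m * (ε / 2)) := by
        apply mul_le_mul _ hBlt (by positivity) (by positivity)
        linarith
    _ = (N + 2 ^ m) * (ε / 2) := by
        have : (2 : ℝ) ^ m ≠ 0 := by positivity
        field_simp
    _ ≤ ε * N := by nlinarith

/-- constancy on the dyadic blocks above `m` gives constancy (negative side). -/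
lemma const_of_dyadic_blocks {c : ℕ → α} (h : NInv c) {m : ℕ} (hm : 1 ≤ m)
    (hblock' : ∀ k r, r < 2 ^ k → c (r + 2 ^ k * m) = c m) : ∀ n, 1 ≤ n → c n = c m := by
  -- all integers prime to `3`
  have hcop : ∀ n, 1 ≤ n → ¬ 3 ∣ n → c n = c m := by
    intro n hn h3
    have hnpos : (0 : ℝ) < n := by exact_mod_cast hn
    have hmpos : (0 : ℝ) < m := by exact_mod_cast hm
    obtain ⟨j, q, h1, h2⟩ := exists_pow_between (K := 3) (by norm_num) (by
        intro a b ha hab
        have := pow_mult_indep (k := 3) (fun a h => by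
          have h4 : (3 : ℕ) % 2 = 1 := rfl
          rw [h] at h4
          rcases Nat.eq_zero_or_pos a with h5 | h5
          · subst h5; norm_num at h
          · have : 2 ^ a % 2 = 0 := Nat.mod_eq_zero_of_dvd (dvd_pow_self 2 (by omega))
            omega) (p := 1) le_rfl a b ha
        exact this (by simpa using hab))
      (x := (m : ℝ) / n) (y := ((m : ℝ) + 1) / n) (by positivity)
      (div_lt_div_of_pos_right (by linarith) hnpos)
    rw [div_mul_eq_mul_div, div_lt_iff₀ hnpos] at h1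
    rw [div_mul_eq_mul_div, lt_div_iff₀ hnpos] at h2
    have h1' : m * 3 ^ q < 2 ^ j * n := by exact_mod_cast h1
    have h2' : 2 ^ j * n < (m + 1) * 3 ^ q := by exact_mod_cast h2
    rw [mul_comm (m + 1)] at h2'
    rw [mul_comm m] at h1'
    obtain ⟨s, hs⟩ : ∃ s, 2 ^ j * n + s = 3 ^ q * (m + 1) := ⟨3 ^ q * (m + 1) - 2 ^ j * n, by
      omega⟩
    have hs0 : 0 < s := by omega
    have hslt : s < 3 ^ q := by
      rw [mul_add, mul_one] at hs
      omega
    have hq : q ≠ 0 := by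
      rintro rfl
      simp at hslt; omega
    have h3s : ¬ 3 ∣ s := by
      intro h4
      have h5 : 3 ∣ 2 ^ j * n := by
        have h6 : 3 ∣ 3 ^ q * (m + 1) := Dvd.dvd.mul_right (dvd_pow_self 3 hq) _
        rw [← hs] at h6
        exact (Nat.dvd_add_left h4).mp h6
      rcases (Nat.Prime.dvd_mul Nat.prime_three).mp h5 with h6 | h6
      · have := Nat.Prime.dvd_of_dvd_pow Nat.prime_three h6
        omega
      · exact h3 h6
    obtain ⟨K0, hK0⟩ := reach q s (Or.inr ⟨hslt, h3s⟩)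
    obtain ⟨r, hr, horb⟩ := hK0 K0 le_rfl
    have hr0 : 0 < r := by
      rcases Nat.eq_zero_or_pos r with h0 | h0
      · subst h0
        exfalso
        have : orb K0 0 = (0, 0) := by
          have h7 := orb_halve 0 0 0 0 K0 (by simp [orb_zero])
          simpa using h7
        rw [this] at horb
        have := congrArg Prod.fst horb
        exact hq this.symm
      · exact h0
    have hp : 0 < 2 ^ K0 := by positivity
    have e0 : 2 ^ K0 * (m + 1) - r = (2 ^ K0 - r) + 2 ^ K0 * m := by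
      rw [mul_add, mul_one]; omega
    have e1 := hblock' K0 (2 ^ K0 - r) (by omega)
    obtain ⟨_, e2⟩ := h.step K0 r (m + 1) (by rw [mul_add, mul_one]; omega)
    rw [horb] at e2
    simp only at e2
    rw [← h.pow j n, show 2 ^ j * n = 3 ^ q * (m + 1) - s by omega, e2, e0, e1]
  intro n hn
  by_cases h3 : 3 ∣ n
  · obtain ⟨e, o, ho, rfl⟩ := Nat.exists_eq_two_pow_mul_odd (n := n) (by omega)
    obtain ⟨i, rfl⟩ := ho
    rw [h.pow, ← h.odd]
    exact hcop _ (by omega) (by omega)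
  · exact hcop n hn h3

end Pool.Agent.H966R2.Neg
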